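import Pool.Agent.helper24.SK.SpecE
import Pool.Agent.helper43.CH.SUP
import Pool.Agent.helper78.SK.EWD

/-! # Row SLR of the sk project: blocks of primes cut at `UN C N` -/

set_option autoImplicit false

namespace Pool.Agent.SK

open Finset ArithmeticFunction MeasureTheory
open Pool.Agent.CH (nit DPb Win Tset ph rgh)
open Pool.Agent.EC (tri vN fN XN TL AdT yN UN edg)
open Pool.Agent.helper85.BVP (tau)
open GD (ks)

theorem SLR_tlog : Filter.Tendsto (fun N : ℕ => Real.log N) Filter.atTop Filter.atTop :=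
  Real.tendsto_log_atTop.comp (tendsto_natCast_atTop_atTop (R := ℝ))

theorem SLR_y : ∀ᶠ N : ℕ in Filter.atTop, yN N ≤ (N : ℝ) ^ (1 / 4 : ℝ) := by
  have h1 := (tendsto_rpow_atTop (show (0 : ℝ) < 1 / 20 by norm_num)).eventually (Filter.eventually_ge_atTop (4 : ℝ))
  have h2 := SLR_tlog.eventually h1
  filter_upwards [h2, Filter.eventually_ge_atTop 3] with N h3 h4
  have h5 : (0 : ℝ) < N := by
    have : 0 < N := by omega
    exact_mod_cast this
  have h6 : (0 : ℝ) < Real.log N := Real.log_pos (by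
    have : 1 < N := by omega
    exact_mod_cast this)
  unfold yN Pool.Agent.CH.dl
  rw [Real.rpow_def_of_pos h5]
  refine Real.exp_le_exp.2 ?_
  have h7 : Real.log N = Real.log N ^ (19 / 20 : ℝ) * Real.log N ^ (1 / 20 : ℝ) := by
    rw [← Real.rpow_add h6]
    norm_num
  have h8 : 0 < Real.log N ^ (19 / 20 : ℝ) := Real.rpow_pos_of_pos h6 _
  have h9 : Real.log N ^ (19 / 20 : ℝ) * 4 ≤ Real.log N := by
    calc Real.log N ^ (19 / 20 : ℝ) * 4 ≤ Real.log N ^ (19 / 20 : ℝ) * Real.log N ^ (1 / 20 : ℝ) :=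
          mul_le_mul_of_nonneg_left h3 h8.le
      _ = Real.log N := h7.symm
  linarith

theorem SLR_pow (A : ℕ) : ∀ᶠ N : ℕ in Filter.atTop, 6 * Real.log N ^ (A + 1) ≤ (N : ℝ) ^ (1 / 4 : ℝ) := by
  have h := (isLittleO_log_rpow_rpow_atTop ((A + 1 : ℕ) : ℝ) (show (0 : ℝ) < 1 / 4 by norm_num)).def
    (show (0 : ℝ) < 1 / 6 by norm_num)
  have h2 := (tendsto_natCast_atTop_atTop (R := ℝ)).eventually h
  filter_upwards [h2, Filter.eventually_ge_atTop 3] with N hx h4
  have hx1 : (1 : ℝ) ≤ N := by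
    have : 1 ≤ N := by omega
    exact_mod_cast this
  have hl : 0 ≤ Real.log N := Real.log_nonneg hx1
  rw [Real.rpow_natCast, Real.norm_of_nonneg (by positivity), Real.norm_of_nonneg (by positivity)] at hx
  linarith

theorem SLR (h1 : Pool.Agent.CH.VP_stmt) : SLR_stmt := by
  classical
  intro A Bq C
  obtain ⟨B₁, N₁, hS⟩ := Pool.Agent.CH.SUP h1 (1 / 2) (A + 1) Bq (by norm_num) (by norm_num)
  obtain ⟨N₂, hN₂⟩ := (SLR_y.and ((SLR_pow A).and
    ((SLR_tlog.eventually_ge_atTop (4 : ℝ)).and (Filter.eventually_ge_atTop 3)))).exists_forall_of_atTop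
  refine ⟨B₁, max N₁ N₂, ?_⟩
  intro N hN q hq1 hq χ M hM1 hM2 t ht
  obtain ⟨e1, e2, e3, e4⟩ := hN₂ N ((le_max_right _ _).trans hN)
  have hNpos : (0 : ℝ) < N := by
    have : 0 < N := by omega
    exact_mod_cast this
  have hN1 : (1 : ℝ) ≤ N := by
    have : 1 ≤ N := by omega
    exact_mod_cast this
  set L := Real.log (N : ℝ) with hL
  have hLpos : 0 < L := by linarith
  have hM0 : 0 < M := by
    rcases Nat.eq_zero_or_pos M with h | h
    · rw [h] at hM1
      have : (0 : ℝ) < (N : ℝ) ^ (1 / 2 : ℝ) := Real.rpow_pos_of_pos hNpos _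
      push_cast at hM1
      linarith
    · exact h
  have hM0R : (0 : ℝ) < M := by exact_mod_cast hM0
  have hN23 : N ^ 2 ≤ N ^ 3 := Nat.pow_le_pow_right (by omega) (by norm_num)
  have hM3 : M ≤ 64 * N ^ 3 := by omega
  have ht2 : |t| ≤ (N : ℝ) ^ 2 := by
    refine ht.2.trans ?_
    rw [← Real.rpow_natCast]
    exact Real.rpow_le_rpow_of_exponent_le hN1 (by norm_num)
  have hs := (hS N ((le_max_left _ _).trans hN) q hq1 hq χ t ht.1 ht2).1 M
  have a1 := hs 0 hM1 hM3
  have a2 := hs (UN C N) hM1 hM3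
  have key : DPb M (fun n => rf C N (fun n => (vonMangoldt n : ℂ)) n * χ n) t =
      DPb M (fun m => if 0 < m then (vonMangoldt m : ℂ) * χ m else 0) t -
      DPb M (fun m => if UN C N < m then (vonMangoldt m : ℂ) * χ m else 0) t -
      ∑ n ∈ (Ico M (2 * M)).filter (fun n => ¬ rgh (yN N) n ∧ n ≤ UN C N), (vonMangoldt n : ℂ) * χ n * nit t n := by
    unfold DPb
    rw [Finset.sum_filter, ← Finset.sum_sub_distrib, ← Finset.sum_sub_distrib]
    refine Finset.sum_congr rfl fun n hn => ?_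
    have hn0 : 0 < n := by
      have := (Finset.mem_Ico.1 hn).1
      omega
    unfold rf
    by_cases c1 : rgh (yN N) n <;> by_cases c2 : n ≤ UN C N
    · have c3 : ¬ UN C N < n := by omega
      simp [c1, c2, hn0, c3]
    · have c3 : UN C N < n := by omega
      simp [c1, c2, hn0, c3]
    · have c3 : ¬ UN C N < n := by omega
      simp [c1, c2, hn0, c3]
    · have c3 : UN C N < n := by omega
      simp [c1, c2, hn0, c3]
  have a3 : ‖∑ n ∈ (Ico M (2 * M)).filter (fun n => ¬ rgh (yN N) n ∧ n ≤ UN C N),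
      (vonMangoldt n : ℂ) * χ n * nit t n‖ ≤ yN N * Real.log (2 * M : ℕ) := by
    refine le_trans ?_ (EWD_npr (yN N) (2 * M) (by omega) (Real.exp_pos _).le)
    refine (norm_sum_le _ _).trans ?_
    have b1 : ∀ n ∈ (Ico M (2 * M)).filter (fun n => ¬ rgh (yN N) n ∧ n ≤ UN C N),
        ‖(vonMangoldt n : ℂ) * χ n * nit t n‖ ≤ vonMangoldt n := by
      intro n _
      have b2 : ‖nit t n‖ = 1 := by
        unfold nit
        rw [Complex.norm_exp_ofReal_mul_I]
      rw [norm_mul, norm_mul, b2, mul_one, Complex.norm_real, Real.norm_of_nonneg vonMangoldt_nonneg]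
      exact mul_le_of_le_one_right vonMangoldt_nonneg (DirichletCharacter.norm_le_one χ _)
    refine (Finset.sum_le_sum b1).trans ?_
    refine Finset.sum_le_sum_of_subset_of_nonneg ?_ (fun n _ _ => vonMangoldt_nonneg)
    intro n hn
    rw [Finset.mem_filter, Finset.mem_Ico] at hn
    rw [Finset.mem_filter, Finset.mem_Ioc]
    exact ⟨⟨by omega, by omega⟩, hn.2.1⟩
  have a4 : Real.log (2 * M : ℕ) ≤ 3 * L := by
    have b1 : ((2 * M : ℕ) : ℝ) ≤ (N : ℝ) ^ 3 := by
      have : 2 * M ≤ N ^ 3 := by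
        have h5 : N ^ 3 = N * N ^ 2 := by ring
        have h6 : 2 * N ^ 2 ≤ N * N ^ 2 := Nat.mul_le_mul_right _ (by omega)
        omega
      exact_mod_cast this
    have b2 : (0 : ℝ) < ((2 * M : ℕ) : ℝ) := by
      have : 0 < 2 * M := by omega
      exact_mod_cast this
    have b3 := Real.log_le_log b2 b1
    rw [Real.log_pow] at b3
    push_cast at b3 ⊢
    exact b3
  have a5 : yN N * (3 * L) ≤ M / L ^ A / 2 := by
    rw [div_div, le_div_iff₀ (by positivity)]
    have b1 : (N : ℝ) ^ (1 / 4 : ℝ) * (N : ℝ) ^ (1 / 4 : ℝ) = (N : ℝ) ^ (1 / 2 : ℝ) := by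
      rw [← Real.rpow_add hNpos]
      norm_num
    have b2 : 0 < (N : ℝ) ^ (1 / 4 : ℝ) := Real.rpow_pos_of_pos hNpos _
    have b3 : 0 ≤ yN N := (Real.exp_pos _).le
    calc yN N * (3 * L) * (L ^ A * 2) = yN N * (6 * L ^ (A + 1)) := by ring
      _ ≤ (N : ℝ) ^ (1 / 4 : ℝ) * (N : ℝ) ^ (1 / 4 : ℝ) := mul_le_mul e1 e2 (by positivity) b2.le
      _ = (N : ℝ) ^ (1 / 2 : ℝ) := b1
      _ ≤ M := hM1
  have a6 : (M : ℝ) / L ^ (A + 1) ≤ M / L ^ A / 4 := by
    rw [div_div]
    refine div_le_div_of_nonneg_left hM0R.le (by positivity) ?_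
    rw [pow_succ]
    exact mul_le_mul_of_nonneg_left e3 (by positivity)
  rw [key]
  have a7 : yN N * Real.log (2 * M : ℕ) ≤ yN N * (3 * L) := mul_le_mul_of_nonneg_left a4 (Real.exp_pos _).le
  calc _ ≤ ‖DPb M (fun m => if 0 < m then (vonMangoldt m : ℂ) * χ m else 0) t -
        DPb M (fun m => if UN C N < m then (vonMangoldt m : ℂ) * χ m else 0) t‖ +
        ‖∑ n ∈ (Ico M (2 * M)).filter (fun n => ¬ rgh (yN N) n ∧ n ≤ UN C N),
      (vonMangoldt n : ℂ) * χ n * nit t n‖ := norm_sub_le _ _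
    _ ≤ (‖DPb M (fun m => if 0 < m then (vonMangoldt m : ℂ) * χ m else 0) t‖ +
        ‖DPb M (fun m => if UN C N < m then (vonMangoldt m : ℂ) * χ m else 0) t‖) +
        yN N * Real.log (2 * M : ℕ) := add_le_add (norm_sub_le _ _) a3
    _ ≤ (M / L ^ A / 4 + M / L ^ A / 4) + M / L ^ A / 2 := by
        refine add_le_add (add_le_add (a1.trans a6) (a2.trans a6)) (a7.trans a5)
    _ = M / L ^ A := by ring

end Pool.Agent.SK
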